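import Pool.Agent.H12.Hilb2

set_option autoImplicit false

namespace Pool.Agent.Results.MP_27276c_an.NotSharp

open Set MeasureTheory
open scoped NNReal ENNReal

/-- `λ = 2 - 1/p - 1/q`. -/
noncomputable def lam (p q : ℝ) : ℝ := 2 - 1 / p - 1 / q

/-- `K(p,q) = π^λ csc^λ (π (q-1) / (λ q))`. -/
noncomputable def K (p q : ℝ) : ℝ :=
  Real.pi ^ lam p q * (1 / Real.sin (Real.pi * (q - 1) / (lam p q * q))) ^ lam p q

/-- The series inequality (S) with constant `C`; `a m` is the term `a_{m+1}`. -/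
def HoldsS (p q C : ℝ) : Prop :=
  ∀ a b : ℕ → ℝ≥0,
    ∑' m : ℕ, ∑' n : ℕ, (a m : ℝ≥0∞) * b n *
        ENNReal.ofReal ((((m : ℝ) + 1) + ((n : ℝ) + 1)) ^ (-lam p q))
      ≤ ENNReal.ofReal C * (∑' m, (a m : ℝ≥0∞) ^ p) ^ (1 / p) * (∑' n, (b n : ℝ≥0∞) ^ q) ^ (1 / q)

/-- The integral inequality (I) with constant `C`. -/
def HoldsI (p q C : ℝ) : Prop :=
  ∀ f g : ℝ → ℝ≥0, Measurable f → Measurable g →
    ∫⁻ z in Ioi (0 : ℝ) ×ˢ Ioi (0 : ℝ),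
        (f z.1 : ℝ≥0∞) * g z.2 * ENNReal.ofReal ((z.1 + z.2) ^ (-lam p q))
      ≤ ENNReal.ofReal C * (∫⁻ x in Ioi (0 : ℝ), (f x : ℝ≥0∞) ^ p) ^ (1 / p)
        * (∫⁻ y in Ioi (0 : ℝ), (g y : ℝ≥0∞) ^ q) ^ (1 / q)

theorem result :
    (∃ C : ℝ, 0 < C ∧ C < K (4 / 3) (4 / 3) ∧ HoldsS (4 / 3) (4 / 3) C ∧
      HoldsI (4 / 3) (4 / 3) C) ∧
    (¬ ∀ p q : ℝ, 1 < p → 1 < q → 1 < 1 / p + 1 / q → IsLeast {C | HoldsS p q C} (K p q)) ∧
    (¬ ∀ p q : ℝ, 1 < p → 1 < q → 1 < 1 / p + 1 / q → IsLeast {C | HoldsI p q C} (K p q)) := by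
  obtain ⟨C, h0, h1, h2⟩ := Pool.Agent.H12.Hilb.integral_form
  have hl : lam (4 / 3) (4 / 3) = 1 / 2 := by unfold lam; norm_num
  have hK : K (4 / 3) (4 / 3) = √Real.pi := by
    unfold K
    rw [hl, show Real.pi * (4 / 3 - 1) / (1 / 2 * (4 / 3)) = Real.pi / 2 by ring,
      Real.sin_pi_div_two, Real.sqrt_eq_rpow]
    simp
  have hC : (C : ℝ) < K (4 / 3) (4 / 3) := by
    rw [hK]
    have : (C : ℝ) < (NNReal.sqrt NNReal.pi : ℝ≥0) := h1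
    rwa [Real.coe_sqrt, NNReal.coe_real_pi] at this
  have e34 : (1 / (4 / 3) : ℝ) = 3 / 4 := by norm_num
  have hS : HoldsS (4 / 3) (4 / 3) C := by
    intro a b
    rw [hl, e34, ENNReal.ofReal_coe_nnreal, ENNReal.tsum_comm,
      ← Pool.Agent.H12.Hilb.st_int, ← Pool.Agent.H12.Hilb.st_int]
    exact le_trans (Pool.Agent.H12.Hilb.st_form a b)
      (h2 _ _ (Pool.Agent.H12.Hilb.st_meas a) (Pool.Agent.H12.Hilb.st_meas b))
  have hI : HoldsI (4 / 3) (4 / 3) C := by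
    intro f g hf hg
    rw [hl, e34, ENNReal.ofReal_coe_nnreal, Measure.volume_eq_prod, ← Measure.prod_restrict,
      lintegral_prod_symm _ (by fun_prop)]
    exact h2 f g hf hg
  refine ⟨⟨C, h0, hC, hS, hI⟩, fun h => ?_, fun h => ?_⟩
  · exact absurd ((h (4 / 3) (4 / 3) (by norm_num) (by norm_num) (by norm_num)).2 hS)
      (not_le.2 hC)
  · exact absurd ((h (4 / 3) (4 / 3) (by norm_num) (by norm_num) (by norm_num)).2 hI)
      (not_le.2 hC)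

end Pool.Agent.Results.MP_27276c_an.NotSharp
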